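import Pool.Agent.H41.AUG.Final

set_option autoImplicit false

/-!
MP_36eb6d_co: if `mad(G) < k`, where `k ≥ 3`, then the correspondence packing number of `G` is at
most `⌈(5k - 2) / 3⌉`.
-/

namespace Pool.Agent.Results.MP_36eb6d_co.FiveThirds

open Pool.Agent.H41.CP Pool.Agent.H41.AUG

/-- Let `k ≥ 3` be a natural number and `G` a finite graph with `mad(G) < k`. Then for every
`n ≥ (5k - 2) / 3` every `n`-fold correspondence cover of `G` has a packing; so the correspondence
packing number of `G` is at most `⌈(5k - 2) / 3⌉ = ⌊5k / 3⌋`. -/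
theorem result (k : ℕ) (hk : 3 ≤ k) (V : Type) [Fintype V] (G : SimpleGraph V)
    (h : MadLT G k) :
    corrPackingNumber G ≤ 5 * k / 3 ∧
      ∀ n : ℕ, 5 * k ≤ 3 * n + 2 → ∀ C : Cover G n, C.HasPacking := by
  have key : ∀ n : ℕ, 5 * k ≤ 3 * n + 2 → ∀ C : Cover G n, C.HasPacking := by
    intro n hn
    refine packing_mad G n (by omega) ?_
    intro S hS
    have h1 := h S hS
    have h2 : ((k : ℝ)) ≤ (3 * n + 2) / 5 := by
      have h3 : ((5 * k : ℕ) : ℝ) ≤ ((3 * n + 2 : ℕ) : ℝ) := by exact_mod_cast hn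
      push_cast at h3
      linarith
    exact lt_of_lt_of_le h1 (mul_le_mul_of_nonneg_right h2 (Nat.cast_nonneg _))
  exact ⟨number_le (by omega) (key _ (by omega)), key⟩

end Pool.Agent.Results.MP_36eb6d_co.FiveThirds
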