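import Pool.Agent.H41.CP.Main3

set_option autoImplicit false

/-!
MP_36eb6d_co, the case `k = 5`: a graph with maximum average degree less than five has
correspondence packing number at most six.
-/

namespace Pool.Agent.Results.MP_36eb6d_co.MadFive

open Pool.Agent.H41.CP

/-- Every finite graph `G` with `mad(G) < 5` has correspondence packing number at most `6`, and
every `6`-fold correspondence cover of `G` (with arbitrary matchings) has a packing. -/
theorem result (V : Type) [Fintype V] (G : SimpleGraph V) (h : MadLT G 5) :
    corrPackingNumber G ≤ 6 ∧ ∀ C : Cover G 6, C.HasPacking :=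
  ⟨number_le_six G h, packs6 G h⟩

end Pool.Agent.Results.MP_36eb6d_co.MadFive
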